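import Pool.Agent.H80.PK.KStmts

/-! # Board pkt, row HFI: `hfc x` is an idempotent -/

set_option autoImplicit false

namespace Pool.PK

open Filter Topology

/-- row HFI -/
theorem HFI (h1 : COEStmt) (h2 : SUMStmt) : HFIStmt := by
  intro A _ _ _ x hx
  obtain ⟨hco, hconv⟩ := h1
  obtain ⟨C, ρ, hC, hρ0, hρ1, hb⟩ := h2 A (dev x) hx
  set y : A := dev x with hy
  have hgeo : Summable fun k : ℕ => C * ρ ^ k :=
    (summable_geometric_of_lt_one hρ0.le hρ1).mul_left C
  have hsn : Summable fun k : ℕ => ‖((co k : ℝ) : ℂ) • y ^ k‖ := by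
    refine Summable.of_nonneg_of_le (fun k => norm_nonneg _) (fun k => ?_) hgeo
    rw [norm_smul]
    have : ‖((co k : ℝ) : ℂ)‖ ≤ 1 := by
      rw [Complex.norm_real, Real.norm_eq_abs, abs_of_nonneg (hco k).1]
      exact (hco k).2
    calc ‖((co k : ℝ) : ℂ)‖ * ‖y ^ k‖ ≤ 1 * ‖y ^ k‖ :=
          mul_le_mul_of_nonneg_right this (norm_nonneg _)
      _ = ‖y ^ k‖ := one_mul _
      _ ≤ C * ρ ^ k := hb k
  have hpow : Summable fun k : ℕ => y ^ k :=
    Summable.of_norm (Summable.of_nonneg_of_le (fun k => norm_nonneg _) hb hgeo)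
  set s : A := ∑' k : ℕ, ((co k : ℝ) : ℂ) • y ^ k with hs
  have hss : s * s = ∑' n : ℕ, y ^ n := by
    rw [hs, tsum_mul_tsum_eq_tsum_sum_antidiagonal_of_summable_norm hsn hsn]
    refine tsum_congr fun n => ?_
    have e1 : ∀ p ∈ Finset.HasAntidiagonal.antidiagonal n,
        (((co p.1 : ℝ) : ℂ) • y ^ p.1) * (((co p.2 : ℝ) : ℂ) • y ^ p.2) =
          (((co p.1 * co p.2 : ℝ)) : ℂ) • y ^ n := by
      intro p hp
      have hpn := Finset.HasAntidiagonal.mem_antidiagonal.mp hp
      rw [smul_mul_smul_comm, ← pow_add, hpn, Complex.ofReal_mul]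
    rw [Finset.sum_congr rfl e1, ← Finset.sum_smul, ← Complex.ofReal_sum, hconv n,
      Complex.ofReal_one, one_smul]
  have hone : s * s * (1 - y) = 1 := by rw [hss]; exact hpow.tsum_pow_mul_one_sub
  have hcx : Commute x y := by
    rw [hy, dev]
    exact (Commute.ofNat_right x 4).mul_right
      ((Commute.refl x).mul_right ((Commute.one_right x).sub_right (Commute.refl x)))
  have hcs : Commute x s := by
    rw [hs]
    exact Commute.tsum_right x fun n => (hcx.pow_right n).smul_right _
  set v : A := 2 * x - 1 with hv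
  have hcv : Commute v s :=
    ((Commute.ofNat_left 2 s).mul_left hcs).sub_left (Commute.one_left s)
  have hvv : v * v = 1 - y := by
    rw [hv, hy, dev]
    noncomm_ring
  have hw : (v * s) * (v * s) = 1 := by
    calc (v * s) * (v * s) = v * (s * v) * s := by noncomm_ring
      _ = v * (v * s) * s := by rw [hcv.eq]
      _ = (v * v) * (s * s) := by noncomm_ring
      _ = (1 - y) * (s * s) := by rw [hvv]
      _ = s * s * (1 - y) := by
        have : Commute (1 - y) (s * s) := by
          rw [← hvv]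
          exact (hcv.mul_right hcv).mul_left (hcv.mul_right hcv)
        exact this.eq
      _ = 1 := hone
  have hh : hfc x = (1 / 2 : ℂ) • (1 + v * s) := rfl
  rw [hh, smul_mul_smul_comm]
  have e2 : (1 + v * s) * (1 + v * s) = (2 : ℂ) • (1 + v * s) := by
    rw [two_smul]
    calc (1 + v * s) * (1 + v * s) = 1 + v * s + v * s + (v * s) * (v * s) := by noncomm_ring
      _ = _ := by rw [hw]; abel
  rw [e2, smul_smul]
  norm_num

end Pool.PK
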