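import Pool.Agent.H80.PK.GStmts

/-! # Board pkt, row IOT -/

set_option autoImplicit false

namespace Pool.PK

open MeasureTheory Filter Topology UniformSpace

/-- row IOT -/
theorem IOT : IOTStmt := by
  intro C _ _ _ _ s
  have hadd : ∀ f g : C, cp s (f + g) = cp s f + cp s g := fun f g =>
    Completion.coe_add (α := SN s) f g
  have hsmul : ∀ (c : ℂ) (f : C), cp s (c • f) = c • cp s f := fun c f =>
    Completion.coe_smul (X := SN s) c f
  have hmul : ∀ f g : C, cp s (f * g) = cp s f * cp s g := fun f g => coe_mul' s f g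
  have hzero : cp s 0 = 0 := Completion.coe_zero (α := SN s)
  let ψ : C →ₙₐ[ℂ] Un (CP s) :=
    { toFun := fun f => WithLp.toLp 1 (Unitization.inr (cp s f) : Unitization ℂ (CP s))
      map_smul' := fun c f => by
        rw [hsmul, Unitization.inr_smul]
        rfl
      map_zero' := by
        rw [hzero, Unitization.inr_zero]
        rfl
      map_add' := fun f g => by
        rw [hadd, Unitization.inr_add]
        rfl
      map_mul' := fun f g => by
        rw [hmul, Unitization.inr_mul]
        rfl }
  have hι : ∀ x, ψ.toAlgHom x = iot s x := by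
    intro x
    rw [NonUnitalAlgHom.toAlgHom_apply]
    rfl
  refine ⟨ψ.toAlgHom, hι, ?_⟩
  let Φ : ℂ × CP s →+ Un (CP s) :=
    { toFun := fun y => WithLp.toLp 1
        ((Unitization.inl y.1 : Unitization ℂ (CP s)) + Unitization.inr y.2)
      map_zero' := by
        simp
      map_add' := fun x y => by
        rw [← WithLp.toLp_add]
        congr 1
        rw [Prod.fst_add, Prod.snd_add, Unitization.inl_add, Unitization.inr_add]
        abel }
  have hΦ : Continuous Φ := by
    refine AddMonoidHomClass.continuous_of_bound Φ 2 fun y => ?_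
    rw [WithLp.unitization_norm_def]
    have e1 : (WithLp.ofLp (Φ y)).fst = y.1 := by
      change (Unitization.inl y.1 + Unitization.inr y.2 : Unitization ℂ (CP s)).fst = y.1
      simp
    have e2 : (WithLp.ofLp (Φ y)).snd = y.2 := by
      change (Unitization.inl y.1 + Unitization.inr y.2 : Unitization ℂ (CP s)).snd = y.2
      simp
    rw [e1, e2]
    have h1 := norm_fst_le y
    have h2 := norm_snd_le y
    linarith
  have hsurj : Function.Surjective Φ := by
    intro z
    refine ⟨((WithLp.ofLp z).fst, (WithLp.ofLp z).snd), ?_⟩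
    change WithLp.toLp 1 (Unitization.inl _ + Unitization.inr _) = z
    rw [Unitization.inl_fst_add_inr_snd_eq]
  have hcp : DenseRange (cp s) := Completion.denseRange_coe (α := SN s)
  have hd : DenseRange (Prod.map (id : ℂ → ℂ) (cp s)) := denseRange_id.prodMap hcp
  have hd2 : DenseRange (Φ ∘ Prod.map (id : ℂ → ℂ) (cp s)) := hsurj.denseRange.comp hd hΦ
  refine hd2.mono ?_
  rintro _ ⟨⟨a, f⟩, rfl⟩
  refine ⟨Unitization.inl a + Unitization.inr f, ?_⟩
  rw [hι]
  change WithLp.toLp 1 _ = WithLp.toLp 1 _
  simp

end Pool.PK
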